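import Mathlib

open Filter Topology

namespace Pool.Agent.Results.MP_59cc96_an.OperationalIsSummation

variable (𝕜 : Type*) [RCLike 𝕜] {E : Type*} [NormedAddCommGroup E] [NormedSpace 𝕜 E]

/-- `P_{(n)}`, the span of the first members `x_0, …, x_n` of the sequence. -/
def P (x : ℕ → E) (n : ℕ) : Submodule 𝕜 E := Submodule.span 𝕜 (x '' Set.Iic n)

variable {𝕜}

theorem mem_P (x : ℕ → E) {i n : ℕ} (h : i ≤ n) : x i ∈ P 𝕜 x n :=
  Submodule.subset_span ⟨i, h, rfl⟩

/-- The partial sum `∑_{i ≤ n} α_i x_i`, as an element of `P_{(n)}`. -/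
def psum (x : ℕ → E) (α : ℕ → 𝕜) (n : ℕ) : P 𝕜 x n :=
  ⟨∑ i ∈ Finset.range (n + 1), α i • x i, Submodule.sum_mem _ (fun i hi =>
    Submodule.smul_mem _ _ (mem_P x (Nat.lt_succ_iff.mp (Finset.mem_range.mp hi))))⟩

variable (𝕜)

/-- `(x_n)` is complete and minimal with functionals `(f_n)`. -/
structure IsCompleteMinimal (x : ℕ → E) (f : ℕ → StrongDual 𝕜 E) : Prop where
  dense : (Submodule.span 𝕜 (Set.range x)).topologicalClosure = ⊤
  biorth : ∀ i j, f i (x j) = if i = j then 1 else 0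

/-- `(x_n)` is an operational basis: it is complete minimal and, for some linear maps
`v_n : P_{(n)} → P_{(n)}`, every `y` is the limit of `v_n(s_n(y))`. -/
def IsOperationalBasis (x : ℕ → E) : Prop :=
  ∃ f : ℕ → StrongDual 𝕜 E, IsCompleteMinimal 𝕜 x f ∧
    ∃ v : (n : ℕ) → P 𝕜 x n →ₗ[𝕜] P 𝕜 x n,
      ∀ y : E, Tendsto (fun n => (v n (psum x (fun i => f i y) n) : E)) atTop (𝓝 y)

/-- `(x_n)` is a generalized summation basis with respect to `(v_n)`. -/
structure IsGenSummationBasis (x : ℕ → E) (v : (n : ℕ) → P 𝕜 x n →ₗ[𝕜] P 𝕜 x n) : Prop where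
  tendsto_self : ∀ i, Tendsto (fun n => if h : i ≤ n then (v n ⟨x i, mem_P x h⟩ : E) else 0)
    atTop (𝓝 (x i))
  expansion : ∀ y : E, ∃! α : ℕ → 𝕜, Tendsto (fun n => (v n (psum x α n) : E)) atTop (𝓝 y)

variable {𝕜}

/-- truncation onto `P_{(k)}` -/
noncomputable def tr (x : ℕ → E) (f : ℕ → StrongDual 𝕜 E) (k : ℕ) : E →ₗ[𝕜] P 𝕜 x k where
  toFun y := psum x (fun i => f i y) k
  map_add' y z := by
    apply Subtype.ext
    simp [psum, add_smul, Finset.sum_add_distrib]
  map_smul' c y := by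
    apply Subtype.ext
    simp [psum, mul_smul, Finset.smul_sum]

theorem P_mono (x : ℕ → E) {k n : ℕ} (h : k ≤ n) : P 𝕜 x k ≤ P 𝕜 x n :=
  Submodule.span_mono (Set.image_mono (Set.Iic_subset_Iic.mpr h))

/-- the diagonal operator with coefficients `c`, cut at `k` -/
noncomputable def diag (x : ℕ → E) (f : ℕ → StrongDual 𝕜 E) (c : ℕ → ℝ) (k : ℕ) : E →ₗ[𝕜] P 𝕜 x k where
  toFun y := psum x (fun i => (c i : 𝕜) * f i y) k
  map_add' y z := by
    apply Subtype.ext
    simp [psum, add_smul, mul_add, Finset.sum_add_distrib]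
  map_smul' a y := by
    apply Subtype.ext
    simp only [psum, map_smul, smul_eq_mul, RingHom.id_apply, Submodule.coe_smul, Finset.smul_sum]
    refine Finset.sum_congr rfl (fun i _ => ?_)
    rw [smul_smul]
    congr 1
    ring

/-- The modified operators. -/
noncomputable def v' (x : ℕ → E) (f : ℕ → StrongDual 𝕜 E) (c : ℕ → ℝ)
    (v : (n : ℕ) → P 𝕜 x n →ₗ[𝕜] P 𝕜 x n) (n : ℕ) : P 𝕜 x n →ₗ[𝕜] P 𝕜 x n :=
  if Even n then v n else
    (Submodule.inclusion (P_mono x (Nat.sub_le n 1))).comp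
      (((v (n - 1)).comp (tr x f (n - 1)) + (diag x f c (n - 1)) -
        (diag x f c (n - 1)).comp ((P 𝕜 x (n - 1)).subtype.comp ((v (n - 1)).comp (tr x f (n - 1))))).comp
          (P 𝕜 x n).subtype)

theorem f_psum {x : ℕ → E} {f : ℕ → StrongDual 𝕜 E}
    (hb : ∀ i j, f i (x j) = if i = j then 1 else 0) (α : ℕ → 𝕜) {i n : ℕ} (h : i ≤ n) :
    f i (psum x α n) = α i := by
  have : (psum x α n : E) = ∑ i ∈ Finset.range (n + 1), α i • x i := rfl
  rw [this, map_sum]
  simp only [map_smul, hb, smul_eq_mul, mul_ite, mul_one, mul_zero]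
  rw [Finset.sum_ite_eq, if_pos (Finset.mem_range.mpr (by omega))]

theorem psum_congr (x : ℕ → E) {α β : ℕ → 𝕜} {n : ℕ} (h : ∀ i ≤ n, α i = β i) :
    psum x α n = psum x β n := by
  apply Subtype.ext
  show ∑ i ∈ Finset.range (n + 1), α i • x i = ∑ i ∈ Finset.range (n + 1), β i • x i
  exact Finset.sum_congr rfl (fun i hi => by rw [h i (Nat.lt_succ_iff.mp (Finset.mem_range.mp hi))])

theorem v'_even (x : ℕ → E) (f : ℕ → StrongDual 𝕜 E) (c : ℕ → ℝ)
    (v : (n : ℕ) → P 𝕜 x n →ₗ[𝕜] P 𝕜 x n) {n : ℕ} (hn : Even n) : v' x f c v n = v n := by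
  simp [v', hn]

theorem v'_odd {x : ℕ → E} {f : ℕ → StrongDual 𝕜 E}
    (hb : ∀ i j, f i (x j) = if i = j then 1 else 0) (c : ℕ → ℝ)
    (v : (n : ℕ) → P 𝕜 x n →ₗ[𝕜] P 𝕜 x n) (α : ℕ → 𝕜) {n : ℕ} (hn : ¬ Even n) :
    (v' x f c v n (psum x α n) : E) = (v (n - 1) (psum x α (n - 1)) : E)
      + (psum x (fun i => (c i : 𝕜) * α i) (n - 1) : E)
      - (diag x f c (n - 1) (v (n - 1) (psum x α (n - 1)) : E) : E) := by
  have h1 : tr x f (n - 1) (psum x α n : E) = psum x α (n - 1) :=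
    psum_congr x (fun i hi => f_psum hb α (by omega))
  have h2 : diag x f c (n - 1) (psum x α n : E) = psum x (fun i => (c i : 𝕜) * α i) (n - 1) :=
    psum_congr x (fun i hi => by
      show (c i : 𝕜) * f i (psum x α n) = (c i : 𝕜) * α i
      rw [f_psum hb α (by omega)])
  simp only [v', if_neg hn, LinearMap.comp_apply, LinearMap.add_apply, LinearMap.sub_apply,
    Submodule.subtype_apply, h1, h2, Submodule.coe_inclusion, Submodule.coe_add, Submodule.coe_sub]

theorem diag_bound {x : ℕ → E} {f : ℕ → StrongDual 𝕜 E} {c : ℕ → ℝ} (hc0 : ∀ i, 0 ≤ c i)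
    (hc : ∀ i, c i * (‖f i‖ * ‖x i‖) ≤ (1 / 2) ^ i) (k : ℕ) (y : E) :
    ‖(diag x f c k y : E)‖ ≤ 2 * ‖y‖ := by
  have h0 : (diag x f c k y : E) = ∑ i ∈ Finset.range (k + 1), ((c i : 𝕜) * f i y) • x i := rfl
  rw [h0]
  calc ‖∑ i ∈ Finset.range (k + 1), ((c i : 𝕜) * f i y) • x i‖
      ≤ ∑ i ∈ Finset.range (k + 1), ‖((c i : 𝕜) * f i y) • x i‖ := norm_sum_le _ _
    _ ≤ ∑ i ∈ Finset.range (k + 1), (1 / 2 : ℝ) ^ i * ‖y‖ := by
        apply Finset.sum_le_sum
        intro i _
        rw [norm_smul, norm_mul, RCLike.norm_ofReal, abs_of_nonneg (hc0 i)]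
        calc c i * ‖f i y‖ * ‖x i‖ ≤ c i * (‖f i‖ * ‖y‖) * ‖x i‖ := by
              gcongr
              · exact hc0 i
              · exact (f i).le_opNorm y
          _ = (c i * (‖f i‖ * ‖x i‖)) * ‖y‖ := by ring
          _ ≤ (1 / 2) ^ i * ‖y‖ := by gcongr; exact hc i
    _ = (∑ i ∈ Finset.range (k + 1), (1 / 2 : ℝ) ^ i) * ‖y‖ := by rw [Finset.sum_mul]
    _ ≤ 2 * ‖y‖ := by
        gcongr
        have := Summable.sum_le_tsum (Finset.range (k + 1)) (fun i _ => by positivity)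
          summable_geometric_two
        rw [tsum_geometric_two] at this
        exact this

end Pool.Agent.Results.MP_59cc96_an.OperationalIsSummation

open Pool.Agent.Results.MP_59cc96_an.OperationalIsSummation in
/-- Every operational basis is a generalized summation basis for suitable `(v'_n)`. -/
theorem Pool.Agent.Results.MP_59cc96_an.OperationalIsSummation.result {𝕜 : Type*} [RCLike 𝕜]
    {E : Type*} [NormedAddCommGroup E] [NormedSpace 𝕜 E] (x : ℕ → E)
    (hx : IsOperationalBasis 𝕜 x) :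
    ∃ v : (n : ℕ) → P 𝕜 x n →ₗ[𝕜] P 𝕜 x n, IsGenSummationBasis 𝕜 x v := by
  obtain ⟨f, ⟨_, hb⟩, v, hv⟩ := hx
  let c : ℕ → ℝ := fun i => (1 / 2) ^ i / (1 + ‖f i‖ * ‖x i‖)
  have hcpos : ∀ i, 0 < c i := fun i => by positivity
  have hc : ∀ i, c i * (‖f i‖ * ‖x i‖) ≤ (1 / 2) ^ i := by
    intro i
    have h1 : 0 ≤ ‖f i‖ * ‖x i‖ := by positivity
    show (1 / 2) ^ i / (1 + ‖f i‖ * ‖x i‖) * (‖f i‖ * ‖x i‖) ≤ (1 / 2) ^ i
    rw [div_mul_eq_mul_div, div_le_iff₀ (by positivity)]
    gcongr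
    linarith
  -- existence of expansions
  have hex : ∀ y : E, Tendsto (fun n => (v' x f c v n (psum x (fun i => f i y) n) : E)) atTop (𝓝 y) := by
    intro y
    rw [tendsto_iff_norm_sub_tendsto_zero]
    have h1 : Tendsto (fun n => ‖(v n (psum x (fun i => f i y) n) : E) - y‖) atTop (𝓝 0) :=
      tendsto_iff_norm_sub_tendsto_zero.mp (hv y)
    have h2 : Tendsto (fun n => ‖(v (n - 1) (psum x (fun i => f i y) (n - 1)) : E) - y‖) atTop (𝓝 0) :=
      h1.comp (tendsto_sub_atTop_nat 1)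
    have h3 : Tendsto (fun n => ‖(v n (psum x (fun i => f i y) n) : E) - y‖
        + 3 * ‖(v (n - 1) (psum x (fun i => f i y) (n - 1)) : E) - y‖) atTop (𝓝 (0 + 3 * 0)) :=
      h1.add (h2.const_mul 3)
    rw [mul_zero, add_zero] at h3
    apply squeeze_zero (fun _ => norm_nonneg _) _ h3
    intro n
    by_cases hn : Even n
    · rw [v'_even _ _ _ _ hn]
      have : 0 ≤ ‖(v (n - 1) (psum x (fun i => f i y) (n - 1)) : E) - y‖ := norm_nonneg _
      linarith
    · rw [v'_odd hb c v _ hn]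
      set w : E := (v (n - 1) (psum x (fun i => f i y) (n - 1)) : E) with hw
      have h4 : (psum x (fun i => (c i : 𝕜) * f i y) (n - 1) : E) = (diag x f c (n - 1) y : E) := rfl
      have h5 : w + (diag x f c (n - 1) y : E) - (diag x f c (n - 1) w : E) - y
          = (w - y) - (diag x f c (n - 1) (w - y) : E) := by
        rw [map_sub, Submodule.coe_sub]; abel
      rw [h4, h5]
      have h6 := diag_bound (𝕜 := 𝕜) (fun i => (hcpos i).le) hc (n - 1) (w - y)
      have h7 : 0 ≤ ‖(v n (psum x (fun i => f i y) n) : E) - y‖ := norm_nonneg _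
      calc _ ≤ ‖w - y‖ + ‖(diag x f c (n - 1) (w - y) : E)‖ := norm_sub_le _ _
        _ ≤ _ := by linarith
  refine ⟨v' x f c v, ?_, ?_⟩
  · intro i
    refine (hex (x i)).congr' ?_
    filter_upwards [eventually_ge_atTop i] with n hn
    rw [dif_pos hn]
    congr 2
    apply Subtype.ext
    show ∑ j ∈ Finset.range (n + 1), f j (x i) • x j = x i
    simp only [hb, ite_smul, one_smul, zero_smul]
    rw [Finset.sum_ite_eq', if_pos (Finset.mem_range.mpr (by omega))]
  · intro y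
    refine ⟨fun i => f i y, hex y, ?_⟩
    intro β hβ
    -- the difference sequence
    let γ : ℕ → 𝕜 := fun i => β i - f i y
    have hγ : Tendsto (fun n => (v' x f c v n (psum x γ n) : E)) atTop (𝓝 0) := by
      have h1 := hβ.sub (hex y)
      rw [sub_self] at h1
      refine h1.congr (fun n => ?_)
      rw [← Submodule.coe_sub, ← map_sub]
      congr 2
      apply Subtype.ext
      simp [psum, γ, sub_smul, Finset.sum_sub_distrib]
    -- along even indices
    have heven : Tendsto (fun m : ℕ => (v (2 * m) (psum x γ (2 * m)) : E)) atTop (𝓝 0) := by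
      have h1 : Tendsto (fun m : ℕ => 2 * m) atTop atTop :=
        tendsto_atTop_mono (fun m => by show m ≤ 2 * m; omega) tendsto_id
      refine (hγ.comp h1).congr (fun m => ?_)
      simp only [Function.comp]
      rw [v'_even _ _ _ _ (even_two_mul m)]
    have hodd : Tendsto (fun m : ℕ => (v (2 * m) (psum x γ (2 * m)) : E)
      + (psum x (fun i => (c i : 𝕜) * γ i) (2 * m) : E)
      - (diag x f c (2 * m) (v (2 * m) (psum x γ (2 * m)) : E) : E)) atTop (𝓝 0) := by
      have h1 : Tendsto (fun m : ℕ => 2 * m + 1) atTop atTop :=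
        tendsto_atTop_mono (fun m => by show m ≤ 2 * m + 1; omega) tendsto_id
      refine (hγ.comp h1).congr (fun m => ?_)
      have h2 : ¬ Even (2 * m + 1) := by
        rw [Nat.not_even_iff_odd]; exact ⟨m, rfl⟩
      exact v'_odd hb c v γ h2
    have hdiag : Tendsto (fun m : ℕ => (diag x f c (2 * m) (v (2 * m) (psum x γ (2 * m)) : E) : E))
        atTop (𝓝 0) := by
      rw [tendsto_zero_iff_norm_tendsto_zero]
      have h1 : Tendsto (fun m : ℕ => 2 * ‖(v (2 * m) (psum x γ (2 * m)) : E)‖) atTop (𝓝 (2 * 0)) :=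
        ((tendsto_zero_iff_norm_tendsto_zero).mp heven).const_mul 2
      rw [mul_zero] at h1
      exact squeeze_zero (fun _ => norm_nonneg _)
        (fun m => diag_bound (𝕜 := 𝕜) (fun i => (hcpos i).le) hc (2 * m) _) h1
    have hcγ : Tendsto (fun m : ℕ => (psum x (fun i => (c i : 𝕜) * γ i) (2 * m) : E)) atTop (𝓝 0) := by
      have h1 := (hodd.sub heven).add hdiag
      simp only [sub_zero, add_zero] at h1
      refine h1.congr (fun m => ?_)
      abel
    funext k
    have h2 : Tendsto (fun m : ℕ => f k (psum x (fun i => (c i : 𝕜) * γ i) (2 * m) : E)) atTop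
        (𝓝 (f k 0)) := ((f k).continuous.tendsto 0).comp hcγ
    rw [map_zero] at h2
    have h3 : Tendsto (fun m : ℕ => f k (psum x (fun i => (c i : 𝕜) * γ i) (2 * m) : E)) atTop
        (𝓝 ((c k : 𝕜) * γ k)) := by
      apply tendsto_const_nhds.congr'
      filter_upwards [eventually_ge_atTop k] with m hm
      rw [f_psum hb _ (by omega)]
    have h4 := tendsto_nhds_unique h2 h3
    have h5 : (c k : 𝕜) ≠ 0 := by
      exact_mod_cast (hcpos k).ne'
    have h6 : γ k = 0 := by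
      rcases mul_eq_zero.mp h4.symm with h | h
      · exact absurd h h5
      · exact h
    exact sub_eq_zero.mp h6
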